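import Pool.Agent.Helper1.KL.GeneralB
import Pool.Agent.Helper1.KL.Stmts
import Pool.Agent.HC.RatExt

set_option autoImplicit false
set_option linter.style.haveILetI false

/-!
Project KL (MP_0b9e0b_ag), module KL-6: the homotopy lemma.
-/

namespace Pool.Agent.Helper7.KL

open Pool.Agent.Helper16 Pool.Agent.Helper1.KL

section place

variable {N M : Type} [Field N] [Field M] [Algebra N M] [Algebra (RatFunc N) M]
  [IsScalarTower N (RatFunc N) M]

theorem algebraMap_poly (P : Polynomial N) :
    algebraMap (RatFunc N) M (algebraMap (Polynomial N) (RatFunc N) P) =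
      Polynomial.aeval (algebraMap (RatFunc N) M RatFunc.X) P := by
  have h1 : (IsScalarTower.toAlgHom N (RatFunc N) M).comp
      (IsScalarTower.toAlgHom N (Polynomial N) (RatFunc N)) =
        Polynomial.aeval (algebraMap (RatFunc N) M RatFunc.X) := by
    apply Polynomial.algHom_ext
    rw [Polynomial.aeval_X, AlgHom.comp_apply]
    change algebraMap (RatFunc N) M (algebraMap (Polynomial N) (RatFunc N) Polynomial.X) = _
    rw [RatFunc.algebraMap_X]
  exact DFunLike.congr_fun h1 P

theorem at0_val (w : Place N M) (hw : w.val (algebraMap (RatFunc N) M RatFunc.X) < 1)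
    {g : RatFunc N} {c : N} (h : At0 g c) :
    w.val (algebraMap (RatFunc N) M g - algebraMap N M c) < 1 := by
  obtain ⟨P, Q, hQ, hP, rfl⟩ := h
  set s : M := algebraMap (RatFunc N) M RatFunc.X with hs
  have hsr : s ∈ w.ring := hw.le
  have hs0 : w.res s = 0 := (w.res_eq_zero_iff hsr).2 hw
  have key : ∀ R : Polynomial N, Polynomial.aeval s R ∈ w.ring ∧
      w.res (Polynomial.aeval s R) = algebraMap N w.resField (R.eval 0) := by
    intro R
    obtain ⟨h1, h2⟩ := w.res_aeval hsr R
    refine ⟨h1, ?_⟩
    rw [h2, hs0, ← map_zero (algebraMap N w.resField), Polynomial.aeval_algebraMap_apply,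
      Polynomial.coe_aeval_eq_eval]
  obtain ⟨p1, p2⟩ := key P
  obtain ⟨q1, q2⟩ := key Q
  rw [hQ, map_one] at q2
  rw [hP] at p2
  have hQ0 : Polynomial.aeval s Q ≠ 0 := by
    intro h0
    rw [h0, w.res_zero] at q2
    exact zero_ne_one q2
  have hQv : w.val (Polynomial.aeval s Q) = 1 := by
    refine le_antisymm q1 ?_
    by_contra hlt
    rw [not_le] at hlt
    have := (w.res_eq_zero_iff q1).2 hlt
    rw [q2] at this
    exact one_ne_zero this
  rw [map_div₀, algebraMap_poly, algebraMap_poly]
  have h3 : Polynomial.aeval s P / Polynomial.aeval s Q - algebraMap N M c =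
      (Polynomial.aeval s P - algebraMap N M c * Polynomial.aeval s Q) /
        Polynomial.aeval s Q := by
    field_simp
  rw [h3, map_div₀, hQv, div_one]
  have hc : algebraMap N M c ∈ w.ring := w.ring.algebraMap_mem c
  rw [← w.res_eq_zero_iff (sub_mem p1 (mul_mem hc q1)), w.res_sub p1 (mul_mem hc q1),
    w.res_mul hc q1, p2, q2, w.res_algebraMap, mul_one, sub_self]

end place

/-- The place over `s = 0`. -/
theorem exists_place {k N M : Type} [Field k] [Field N] [Field M] [Algebra k N]
    [Algebra (RatFunc k) N] [IsScalarTower k (RatFunc k) N] [Algebra (RatFunc k) M]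
    [Algebra (RatFunc N) M] [FiniteDimensional (RatFunc N) M] (κ : RatFunc k →+* RatFunc N)
    (hκ : algebraMap (RatFunc k) M = (algebraMap (RatFunc N) M).comp κ)
    (hC : ∀ a : k, κ (RatFunc.C a) = RatFunc.C (algebraMap k N a))
    (hX : At0 (κ RatFunc.X) (algebraMap (RatFunc k) N RatFunc.X)) :
    ∃ (v : Place (RatFunc k) M) (φ : N →ₐ[RatFunc k] v.resField),
      0 < v.ord (algebraMap (RatFunc N) M RatFunc.X) ∧
      ∀ g c, At0 g c → algebraMap (RatFunc N) M g ∈ v.ring ∧
        v.res (algebraMap (RatFunc N) M g) = φ c := by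
  letI : Algebra N M := ((algebraMap (RatFunc N) M).comp (algebraMap N (RatFunc N))).toAlgebra
  haveI : IsScalarTower N (RatFunc N) M := IsScalarTower.of_algebraMap_eq fun _ => rfl
  have hF : IsFunctionField N M := (isFunctionField_ratFunc N).of_finite
  set s : M := algebraMap (RatFunc N) M RatFunc.X with hs
  have hst : Transcendental N s :=
    (transcendental_algebraMap_iff (algebraMap (RatFunc N) M).injective).2 RatFunc.transcendental_X
  have hs0 : s ≠ 0 := by
    intro h0
    rw [h0] at hst
    exact hst isAlgebraic_zero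
  obtain ⟨S, hS, h1, h2⟩ := hF.zeros s hst
  have hne : S.Nonempty := by
    rw [Finset.nonempty_iff_ne_empty]
    rintro rfl
    rw [Finset.sum_empty] at h1
    rw [eq_comm, Int.natCast_eq_zero] at h1
    omega
  obtain ⟨w, hw⟩ := hne
  have hw1 : w.val s < 1 := (hS w).1 hw
  -- values of regular elements
  have hat : ∀ g c, At0 g c →
      w.val (algebraMap (RatFunc N) M g - algebraMap N M c) < 1 := fun g c h => at0_val w hw1 h
  -- constants
  have hNv : ∀ c : N, c ≠ 0 → w.val (algebraMap N M c) = 1 := w.triv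
  -- the field of rational functions
  set t : N := algebraMap (RatFunc k) N RatFunc.X with ht
  set T : M := algebraMap (RatFunc k) M RatFunc.X with hT
  have hTe : T = algebraMap (RatFunc N) M (κ RatFunc.X) := by
    rw [hT, hκ]; rfl
  have htT : w.val (T - algebraMap N M t) < 1 := by
    rw [hTe]
    exact hat _ _ hX
  have hCM : ∀ a : k, algebraMap (RatFunc k) M (RatFunc.C a) =
      algebraMap N M (algebraMap k N a) := by
    intro a
    rw [hκ, RingHom.comp_apply, hC, ← RatFunc.algebraMap_eq_C]
    exact (IsScalarTower.algebraMap_apply N (RatFunc N) M _).symm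
  have hpolyK : ∀ P : Polynomial k,
      algebraMap (RatFunc k) M (algebraMap (Polynomial k) (RatFunc k) P) =
        Polynomial.aeval T (P.map (algebraMap k N)) := by
    have h5 : ((algebraMap (RatFunc k) M).comp (algebraMap (Polynomial k) (RatFunc k))) =
        ((Polynomial.aeval (R := N) T).toRingHom.comp (Polynomial.mapRingHom (algebraMap k N))) := by
      apply Polynomial.ringHom_ext
      · intro a
        simp only [RingHom.comp_apply, RatFunc.algebraMap_C, hCM]
        simp
      · simp only [RingHom.comp_apply, RatFunc.algebraMap_X]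
        simp [hT]
    intro P
    exact DFunLike.congr_fun h5 P
  have hpolyN : ∀ P : Polynomial k, algebraMap (RatFunc k) N
      (algebraMap (Polynomial k) (RatFunc k) P) = Polynomial.eval t (P.map (algebraMap k N)) := by
    have h5 : ((algebraMap (RatFunc k) N).comp (algebraMap (Polynomial k) (RatFunc k))) =
        ((Polynomial.evalRingHom t).comp (Polynomial.mapRingHom (algebraMap k N))) := by
      apply Polynomial.ringHom_ext
      · intro a
        simp only [RingHom.comp_apply, RatFunc.algebraMap_C]
        rw [← RatFunc.algebraMap_eq_C, ← IsScalarTower.algebraMap_apply]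
        simp
      · simp only [RingHom.comp_apply, RatFunc.algebraMap_X]
        simp [ht]
    intro P
    exact DFunLike.congr_fun h5 P
  have hTr : T ∈ w.ring := by
    have h5 : T = (T - algebraMap N M t) + algebraMap N M t := by ring
    rw [h5]
    exact add_mem (show _ ∈ w.ring from htT.le) (w.ring.algebraMap_mem t)
  have hTres : w.res T = algebraMap N w.resField t := by
    have h5 : w.res (T - algebraMap N M t) = 0 :=
      (w.res_eq_zero_iff (show _ ∈ w.ring from htT.le)).2 htT
    rw [w.res_sub hTr (w.ring.algebraMap_mem t), w.res_algebraMap, sub_eq_zero] at h5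
    exact h5
  have hP1 : ∀ P : Polynomial k, P ≠ 0 →
      w.val (algebraMap (RatFunc k) M (algebraMap (Polynomial k) (RatFunc k) P)) = 1 := by
    intro P hP
    rw [hpolyK]
    obtain ⟨h5, h6⟩ := w.res_aeval hTr (P.map (algebraMap k N))
    rw [hTres, Polynomial.aeval_algebraMap_apply w.resField t, Polynomial.coe_aeval_eq_eval,
      ← hpolyN] at h6
    refine le_antisymm h5 ?_
    by_contra hlt
    rw [not_le] at hlt
    have h7 := (w.res_eq_zero_iff h5).2 hlt
    rw [h6, map_eq_zero, map_eq_zero, map_eq_zero_iff _ (RatFunc.algebraMap_injective k)] at h7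
    exact hP h7
  have htriv : ∀ a : RatFunc k, a ≠ 0 → w.val (algebraMap (RatFunc k) M a) = 1 := by
    intro a ha
    rw [← RatFunc.num_div_denom a, map_div₀, map_div₀, hP1 _ (by simpa using ha),
      hP1 _ (RatFunc.denom_ne_zero a), div_one]
  let v : Place (RatFunc k) M := ⟨w.val, w.surj, htriv⟩
  have hvr : ∀ a : M, a ∈ v.ring ↔ w.val a ≤ 1 := fun a => Iff.rfl
  have hNr : ∀ c : N, algebraMap N M c ∈ v.ring := fun c => w.ring.algebraMap_mem c
  let φ0 : N →+* v.resField :=
    (IsLocalRing.residue v.ring).comp ((algebraMap N M).codRestrict v.ring.toSubring hNr)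
  have hφ0 : ∀ c, φ0 c = v.res (algebraMap N M c) := by
    intro c
    rw [v.res_of_mem (hNr c)]
    rfl
  have hreg : ∀ (a : M) (c : N), w.val (a - algebraMap N M c) < 1 →
      a ∈ v.ring ∧ v.res a = φ0 c := by
    intro a c h
    have hm : a ∈ v.ring := by
      have h5 : a = (a - algebraMap N M c) + algebraMap N M c := by ring
      rw [h5]
      exact add_mem (show _ ∈ v.ring from h.le) (hNr c)
    refine ⟨hm, ?_⟩
    have h5 : v.res (a - algebraMap N M c) = 0 :=
      (v.res_eq_zero_iff (show _ ∈ v.ring from h.le)).2 h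
    rw [v.res_sub hm (hNr c), sub_eq_zero] at h5
    rw [h5, hφ0]
  have hcomm : φ0.comp (algebraMap (RatFunc k) N) = algebraMap (RatFunc k) v.resField := by
    apply IsLocalization.ringHom_ext (nonZeroDivisors (Polynomial k))
    apply Polynomial.ringHom_ext
    · intro a
      simp only [RingHom.comp_apply, RatFunc.algebraMap_C]
      rw [hφ0, ← v.res_algebraMap, hCM, ← RatFunc.algebraMap_eq_C,
        ← IsScalarTower.algebraMap_apply k (RatFunc k) N]
    · simp only [RingHom.comp_apply, RatFunc.algebraMap_X]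
      rw [← v.res_algebraMap]
      exact (hreg T t htT).2.symm
  let φ : N →ₐ[RatFunc k] v.resField :=
    { φ0 with commutes' := fun a => DFunLike.congr_fun hcomm a }
  refine ⟨v, φ, ?_, fun g c h => hreg _ _ (hat g c h)⟩
  exact (v.ord_pos_iff hs0).2 hw1

/-- Numerical data of the field of the moving point. -/
theorem data_of_finite {k N M : Type} [Field k] [Field N] [Field M] [Algebra k N]
    [Algebra (RatFunc k) N] [IsScalarTower k (RatFunc k) N] [Algebra (RatFunc k) M]
    [Algebra (RatFunc N) M] [FiniteDimensional (RatFunc N) M] (κ : RatFunc k →+* RatFunc N)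
    (hκ : algebraMap (RatFunc k) M = (algebraMap (RatFunc N) M).comp κ)
    (hC : ∀ a : k, κ (RatFunc.C a) = RatFunc.C (algebraMap k N a)) {r : ℕ}
    (hN : Algebra.EssFiniteType (RatFunc k) N) (hr : Algebra.trdeg (RatFunc k) N = r) :
    Algebra.EssFiniteType (RatFunc k) M ∧ Algebra.trdeg (RatFunc k) M = r + 1 := by
  letI : Algebra N M := ((algebraMap (RatFunc N) M).comp (algebraMap N (RatFunc N))).toAlgebra
  haveI : IsScalarTower N (RatFunc N) M := IsScalarTower.of_algebraMap_eq fun _ => rfl
  have hF : IsFunctionField N M := (isFunctionField_ratFunc N).of_finite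
  letI : Algebra k M := ((algebraMap N M).comp (algebraMap k N)).toAlgebra
  haveI : IsScalarTower k N M := IsScalarTower.of_algebraMap_eq fun _ => rfl
  haveI : IsScalarTower k (RatFunc k) M := by
    refine IsScalarTower.of_algebraMap_eq fun a => ?_
    rw [hκ, RingHom.comp_apply, RatFunc.algebraMap_eq_C, hC, ← RatFunc.algebraMap_eq_C]
    rfl
  haveI : Algebra.EssFiniteType k N := HC.essFiniteType_ratFunc_base hN
  haveI := hF.1
  haveI : Algebra.EssFiniteType k M := Algebra.EssFiniteType.comp k N M
  refine ⟨Algebra.EssFiniteType.of_comp k (RatFunc k) M, ?_⟩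
  have h1 := HC.trdeg_base (k := k) (N := N)
  have h2 := trdeg_add_eq k N (A := M)
  have h3 := HC.trdeg_base (k := k) (N := M)
  rw [h1, hF.2, hr, h3] at h2
  exact ((Cardinal.add_nat_inj 1).1 (by exact_mod_cast h2)).symm

theorem val_le_of_as {K M : Type} [Field K] [Field M] [Algebra K M] (v : Place K M) {p : ℕ}
    (hp : 1 < p) {y c : M} (h : y ^ p - y = c) (hc : v.val c ≤ 1) : v.val y ≤ 1 := by
  by_contra hlt
  rw [not_le] at hlt
  have h1 : v.val y < v.val (y ^ p) := by
    rw [map_pow]
    exact lt_self_pow₀ hlt hp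
  have h2 : v.val (y ^ p - y) = v.val (y ^ p) := Valuation.map_sub_eq_of_lt_left _ h1
  rw [h] at h2
  rw [h2] at hc
  exact absurd (h1.trans_le hc) (not_lt.2 hlt.le)

theorem res_cast {K M : Type} [Field K] [Field M] [Algebra K M] (v : Place K M) {p : ℕ}
    [NeZero p] (c : ZMod p) : (c.cast : M) ∈ v.ring ∧ v.res (c.cast : M) = c.cast := by
  have h1 : (c.cast : M) = ((c.val : v.ring) : M) := by
    rw [ZMod.cast_eq_val]
    exact (map_natCast v.ring.val c.val).symm
  have h2 : (c.cast : M) ∈ v.ring := by
    rw [h1]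
    exact (c.val : v.ring).2
  refine ⟨h2, ?_⟩
  rw [v.res_of_mem h2]
  have h3 : (⟨(c.cast : M), h2⟩ : v.ring) = (c.val : v.ring) := Subtype.ext h1
  rw [h3, map_natCast, ZMod.cast_eq_val]

theorem res_sum {K M ι : Type} [Field K] [Field M] [Algebra K M] (v : Place K M)
    (s : Finset ι) (f : ι → M) (h : ∀ i ∈ s, f i ∈ v.ring) :
    ∑ i ∈ s, f i ∈ v.ring ∧ v.res (∑ i ∈ s, f i) = ∑ i ∈ s, v.res (f i) := by
  classical
  induction s using Finset.induction_on with
  | empty => exact ⟨by simp, by simp [v.res_zero]⟩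
  | insert a s ha ih =>
    obtain ⟨h1, h2⟩ := ih fun i hi => h i (Finset.mem_insert_of_mem hi)
    rw [Finset.sum_insert ha, Finset.sum_insert ha]
    have h3 := h a (Finset.mem_insert_self a s)
    exact ⟨add_mem h3 h1, by rw [v.res_add h3 h1, h2]⟩

theorem modHom (k : Type) [Field k] (p : ℕ) [Fact p.Prime] [CharP k p] {n : ℕ} (b : Fin n → k)
    (r : ℕ) (hb : ∀ i, b i ≠ 0) (hP : ModPos k p b r) (hS : ModS k p b r)
    (hL : ModLift k p b) : ModHom k p b r := by
  intro N _ _ _ _ I z ρ κ x' ε W hN hr hz hρ hρ0 hC hX hx hε heq hall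
  have hp := (Fact.out : p.Prime)
  obtain ⟨M, _, iRM, iKM, itow, ifin, isep, z', hz', hI, hnI, hec⟩ :=
    @hL (RatFunc N) _ κ.toAlgebra I ρ x' ε hρ hρ0 (fun i hi => (hx i hi).1) heq
  have hκ : algebraMap (RatFunc k) M = (algebraMap (RatFunc N) M).comp κ :=
    @IsScalarTower.algebraMap_eq (RatFunc k) (RatFunc N) M _ _ _ κ.toAlgebra _ _ itow
  obtain ⟨hMe, hMt⟩ := data_of_finite κ hκ hC hN hr
  obtain ⟨v, φ, hv1, hv2⟩ := exists_place κ hκ hC hX
  set s : M := algebraMap (RatFunc N) M RatFunc.X with hs
  have hs0 : s ≠ 0 := by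
    rw [hs, Ne, map_eq_zero]
    exact RatFunc.X_ne_zero
  refine hP M hMe hMt z' hz' s hs0 (perp ρ) W (SS p b r ρ z) ?_ ?_
  · intro v' h1 h2 h3
    have halg : ∀ a : M, IsAlgebraic (algebraMap (RatFunc N) M).fieldRange a := by
      intro a
      have h4 : IsAlgebraic (RatFunc N) a := Algebra.IsAlgebraic.isAlgebraic a
      obtain ⟨P, hP0, hP1⟩ := h4
      refine ⟨P.map (algebraMap (RatFunc N) M).rangeRestrictField, ?_, ?_⟩
      · exact (Polynomial.map_ne_zero_iff
          (algebraMap (RatFunc N) M).rangeRestrictField.injective).2 hP0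
      · rw [Polynomial.aeval_def, Polynomial.eval₂_map]
        exact hP1
    rcases hall M (algebraMap (RatFunc N) M) z' v' hκ hMe hMt halg hz' hI hnI hec h1 h2 h3 with
      h | ⟨h4, h5⟩
    · exact Or.inl h
    · exact Or.inr ⟨h4, (hS v'.resField N (spec v' z') z ρ h2 hz.mem h5).1⟩
  · -- the coordinates of the specialisation
    have hc : ∀ i ∈ I, spec v z' (Sum.inl i) = some (φ (xc z i)) ∧
        spec v z' (Sum.inr i) = some (v.res (yc z' i)) ∧ yc z' i ∈ v.ring ∧
        Curve p (algebraMap (RatFunc k) v.resField RatFunc.X)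
          (algebraMap (RatFunc k) v.resField (RatFunc.C (b i))) (spec v z' (Sum.inl i))
          (spec v z' (Sum.inr i)) := by
      intro i hi
      obtain ⟨h1, h2⟩ := hI i hi
      rcases hz'.cases hb i with ⟨h3, -, -⟩ | ⟨h3, h4, h5, h6⟩
      · exact (h2 h3).elim
      have h7 : xc z' i = algebraMap (RatFunc N) M (x' i) := by
        rw [h1] at h3
        exact (Option.some.inj h3).symm
      obtain ⟨h8, h9⟩ := hv2 _ _ (hx i hi).2
      rw [← h7] at h8 h9
      have hx0 : xc z i ≠ 0 := (hz.of_mem hb hi).2.2.1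
      have hxv : v.val (xc z' i) = 1 := by
        refine le_antisymm h8 ?_
        by_contra hlt
        rw [not_le] at hlt
        have h10 := (v.res_eq_zero_iff h8).2 hlt
        rw [h9, map_eq_zero] at h10
        exact hx0 h10
      have hrhs : v.val (algebraMap (RatFunc k) M RatFunc.X * xc z' i +
          algebraMap (RatFunc k) M (RatFunc.C (b i)) * (xc z' i)⁻¹) ≤ 1 := by
        have h11 : (xc z' i)⁻¹ ∈ v.ring := by
          change v.val _ ≤ 1
          rw [map_inv₀, hxv, inv_one]
        exact add_mem (mul_mem (v.ring.algebraMap_mem _) h8)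
          (mul_mem (v.ring.algebraMap_mem _) h11)
      have hy : yc z' i ∈ v.ring := val_le_of_as v hp.one_lt h6 hrhs
      have hs1 : spec v z' (Sum.inl i) = some (φ (xc z i)) := by
        unfold spec
        rw [h3, Option.bind_some, if_pos h8, h9]
      have hs2 : spec v z' (Sum.inr i) = some (v.res (yc z' i)) := by
        unfold spec
        rw [h4, Option.bind_some, if_pos hy]
      refine ⟨hs1, hs2, hy, Or.inr ⟨φ (xc z i), v.res (yc z' i), hs1, hs2, ?_⟩⟩
      rw [← h9]
      have h12 : xc z' i * (yc z' i ^ p - yc z' i) =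
          algebraMap (RatFunc k) M RatFunc.X * xc z' i ^ 2 +
            algebraMap (RatFunc k) M (RatFunc.C (b i)) := by
        rw [h6]
        field_simp
      have h13 := congrArg v.res h12
      rwa [v.res_mul h8 (sub_mem (pow_mem hy p) hy), v.res_sub (pow_mem hy p) hy,
        v.res_pow hy, v.res_add (mul_mem (v.ring.algebraMap_mem _) (pow_mem h8 2))
          (v.ring.algebraMap_mem _), v.res_mul (v.ring.algebraMap_mem _) (pow_mem h8 2),
        v.res_pow h8, v.res_algebraMap, v.res_algebraMap] at h13
    have hd : ∀ i ∉ I, spec v z' (Sum.inl i) = none ∧ spec v z' (Sum.inr i) = none ∧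
        yc z' i = 0 := by
      intro i hi
      rcases hz'.cases hb i with ⟨h3, -, h4⟩ | ⟨h3, -⟩
      · refine ⟨?_, ?_, h4⟩
        · unfold spec
          rw [hnI i hi]
          rfl
        · unfold spec
          rw [h3]
          rfl
      · rw [hnI i hi] at h3
        cases h3
    have hXV : XV p b v.resField (spec v z') := by
      intro i
      by_cases hi : i ∈ I
      · exact (hc i hi).2.2.2
      · exact Or.inl ⟨(hd i hi).2.1, Or.inl (hd i hi).1⟩
    have hyc : ∀ i, yc z' i ∈ v.ring ∧ yc (spec v z') i = v.res (yc z' i) := by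
      intro i
      by_cases hi : i ∈ I
      · refine ⟨(hc i hi).2.2.1, ?_⟩
        unfold yc
        rw [(hc i hi).2.1]
        rfl
      · obtain ⟨-, h1, h2⟩ := hd i hi
        rw [h2]
        refine ⟨zero_mem _, ?_⟩
        unfold yc
        rw [h1, v.res_zero]
        rfl
    have hecv : ec ρ (spec v z') = φ (ec ρ z) := by
      obtain ⟨-, h2⟩ := hv2 _ _ hε
      rw [← h2, ← hec]
      unfold ec
      rw [(res_sum v Finset.univ (fun i => (ρ i).cast * yc z' i)
        (fun i _ => mul_mem (res_cast v (ρ i)).1 (hyc i).1)).2]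
      refine Finset.sum_congr rfl fun i _ => ?_
      rw [v.res_mul (res_cast v (ρ i)).1 (hyc i).1, (res_cast v (ρ i)).2, (hyc i).2]
    have hxv : xpt (spec v z') = fun i => (xpt z i).map φ := by
      funext i
      by_cases hi : i ∈ I
      · change spec v z' (Sum.inl i) = (z (Sum.inl i)).map φ
        rw [(hc i hi).1, (hz.of_mem hb hi).1]
        rfl
      · change spec v z' (Sum.inl i) = (z (Sum.inl i)).map φ
        rw [(hd i hi).1, hz.inf i hi]
        rfl
    have hred : red ρ (spec v z') = fun j => (red ρ z j).map φ := by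
      funext j
      rcases j with i | i
      · exact congrFun hxv i
      · change some (ec ρ (spec v z')) = some (φ (ec ρ z))
        rw [hecv]
    have hkey : key (RatFunc k) (red ρ (spec v z')) = key (RatFunc k) (red ρ z) := by
      rw [hred]
      exact key_map φ _
    refine ⟨v, hv1, hXV, ?_, (hS v.resField N (spec v z') z ρ hXV hz.mem hkey).1⟩
    rw [← trdeg_xpt hXV hb, hxv, trdeg_fld_map, trdeg_xpt hz.mem hb, hz.dim]

end Pool.Agent.Helper7.KL
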